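import Pool.Agent.Helper1.KA.GeneralB
import Pool.Agent.Helper7.KL.Hom

set_option autoImplicit false
set_option linter.style.haveILetI false

/-!
Project KA (MP_0b9e0b_ag), module KA-6: the homotopy lemma.
-/

namespace Pool.Agent.Helper7.KA

open Pool.Agent.Helper16
open Pool.Agent.Helper1.KL (Var VarF Key key fld spec cyc relations rat CH coef Idx)
open Pool.Agent.Helper1.KL (aff xc yc tr ec red xpt perp Prp ratf Vert Con At0 Quo cls IT RT)
open Pool.Agent.Helper1.KL (key_eq_iff getD_map key_map mem_fld getD_mem_fld fld_eq_range fld_map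
  trdeg_fld_map restr restr_map key_restr fld_restr trdeg_fld_restr exists_hom_of_key
  trdeg_eq_of_key charP_ratFunc charP_alg cast_pow_p)
open Pool.Agent.Helper1.KL (map_cast tr_map xc_map yc_map ec_map red_map key_red_map
  key_red_restr fld_xpt_le xc_mem)
open Pool.Agent.Helper7.KL (exists_place data_of_finite val_le_of_as res_cast res_sum)
open Pool.Agent.Helper1.KA (XV Curve ModPos ModS ModLift ModHom SS SH trdeg_xpt)

theorem modHom (k : Type) [Field k] (p a : ℕ) [Fact p.Prime] [CharP k p] {n : ℕ} (c : Fin n → k)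
    (r : ℕ) (hP : ModPos k p a c r) (hS : ModS k p a c r)
    (hL : ModLift k p a c) : ModHom k p a c r := by
  intro N _ _ _ _ I z ρ κ x' ε W hN hr hz hρ hρ0 hC hX hx hε heq hall
  have hp := (Fact.out : p.Prime)
  obtain ⟨M, _, iRM, iKM, itow, ifin, isep, z', hz', hI, hnI, hec⟩ :=
    @hL (RatFunc N) _ κ.toAlgebra I ρ x' ε hρ hρ0 heq
  have hκ : algebraMap (RatFunc k) M = (algebraMap (RatFunc N) M).comp κ :=
    @IsScalarTower.algebraMap_eq (RatFunc k) (RatFunc N) M _ _ _ κ.toAlgebra _ _ itow
  obtain ⟨hMe, hMt⟩ := data_of_finite κ hκ hC hN hr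
  obtain ⟨v, φ, hv1, hv2⟩ := exists_place κ hκ hC hX
  set s : M := algebraMap (RatFunc N) M RatFunc.X with hs
  have hs0 : s ≠ 0 := by
    rw [hs, Ne, map_eq_zero]
    exact RatFunc.X_ne_zero
  refine hP M hMe hMt z' hz' s hs0 (perp ρ) W (SS p a c r ρ z) ?_ ?_
  · intro v' h1 h2 h3
    have halg : ∀ y : M, IsAlgebraic (algebraMap (RatFunc N) M).fieldRange y := by
      intro y
      have h4 : IsAlgebraic (RatFunc N) y := Algebra.IsAlgebraic.isAlgebraic y
      obtain ⟨P, hP0, hP1⟩ := h4
      refine ⟨P.map (algebraMap (RatFunc N) M).rangeRestrictField, ?_, ?_⟩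
      · exact (Polynomial.map_ne_zero_iff
          (algebraMap (RatFunc N) M).rangeRestrictField.injective).2 hP0
      · rw [Polynomial.aeval_def, Polynomial.eval₂_map]
        exact hP1
    rcases hall M (algebraMap (RatFunc N) M) z' v' hκ hMe hMt halg hz' hI hnI hec h1 h2 h3 with
      h | ⟨h4, h5⟩
    · exact Or.inl h
    · exact Or.inr ⟨h4, (hS v'.resField N (spec v' z') z ρ h2 hz.mem h5).1⟩
  · -- the coordinates of the specialisation
    have hc : ∀ i ∈ I, spec v z' (Sum.inl i) = some (φ (xc z i)) ∧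
        spec v z' (Sum.inr i) = some (v.res (yc z' i)) ∧ yc z' i ∈ v.ring ∧
        Curve p a (algebraMap (RatFunc k) v.resField RatFunc.X)
          (algebraMap (RatFunc k) v.resField (RatFunc.C (c i))) (spec v z' (Sum.inl i))
          (spec v z' (Sum.inr i)) := by
      intro i hi
      obtain ⟨h1, h2⟩ := hI i hi
      rcases hz'.cases i with ⟨-, h3, -, -⟩ | ⟨h3, h4, h6⟩
      · exact (h2 h3).elim
      have h7 : xc z' i = algebraMap (RatFunc N) M (x' i) := by
        rw [h1] at h3
        exact (Option.some.inj h3).symm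
      obtain ⟨h8, h9⟩ := hv2 _ _ (hx i hi)
      rw [← h7] at h8 h9
      have hA : algebraMap (RatFunc k) M RatFunc.X ∈ v.ring := v.ring.algebraMap_mem _
      have hB : algebraMap (RatFunc k) M (RatFunc.C (c i)) ∈ v.ring := v.ring.algebraMap_mem _
      have hrhs : algebraMap (RatFunc k) M RatFunc.X *
          algebraMap (RatFunc k) M (RatFunc.C (c i)) * xc z' i ^ a + xc z' i ∈ v.ring :=
        add_mem (mul_mem (mul_mem hA hB) (pow_mem h8 a)) h8
      have hy : yc z' i ∈ v.ring := val_le_of_as v hp.one_lt h6 hrhs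
      have hs1 : spec v z' (Sum.inl i) = some (φ (xc z i)) := by
        unfold spec
        rw [h3, Option.bind_some, if_pos h8, h9]
      have hs2 : spec v z' (Sum.inr i) = some (v.res (yc z' i)) := by
        unfold spec
        rw [h4, Option.bind_some, if_pos hy]
      refine ⟨hs1, hs2, hy, Or.inr ⟨φ (xc z i), v.res (yc z' i), hs1, hs2, ?_⟩⟩
      rw [← h9]
      have h13 := congrArg v.res h6
      rwa [v.res_sub (pow_mem hy p) hy, v.res_pow hy,
        v.res_add (mul_mem (mul_mem hA hB) (pow_mem h8 a)) h8,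
        v.res_mul (mul_mem hA hB) (pow_mem h8 a), v.res_mul hA hB,
        v.res_pow h8, v.res_algebraMap, v.res_algebraMap] at h13
    have hd : ∀ i ∉ I, spec v z' (Sum.inl i) = none ∧ spec v z' (Sum.inr i) = none ∧
        yc z' i = 0 := by
      intro i hi
      rcases hz'.cases i with ⟨h2, h3, -, h4⟩ | ⟨h3, -⟩
      · refine ⟨?_, ?_, h4⟩
        · unfold spec
          rw [hnI i hi]
          rfl
        · unfold spec
          rw [h3]
          rfl
      · rw [hnI i hi] at h3
        cases h3
    have hXV : XV p a c v.resField (spec v z') := by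
      intro i
      by_cases hi : i ∈ I
      · exact (hc i hi).2.2.2
      · exact Or.inl ⟨(hd i hi).1, (hd i hi).2.1⟩
    have hyc : ∀ i, yc z' i ∈ v.ring ∧ yc (spec v z') i = v.res (yc z' i) := by
      intro i
      by_cases hi : i ∈ I
      · refine ⟨(hc i hi).2.2.1, ?_⟩
        unfold yc
        rw [(hc i hi).2.1]
        rfl
      · obtain ⟨-, h1, h2⟩ := hd i hi
        rw [h2]
        refine ⟨zero_mem _, ?_⟩
        unfold yc
        rw [h1, v.res_zero]
        rfl
    have hecv : ec ρ (spec v z') = φ (ec ρ z) := by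
      obtain ⟨-, h2⟩ := hv2 _ _ hε
      rw [← h2, ← hec]
      unfold ec
      rw [(res_sum v Finset.univ (fun i => (ρ i).cast * yc z' i)
        (fun i _ => mul_mem (res_cast v (ρ i)).1 (hyc i).1)).2]
      refine Finset.sum_congr rfl fun i _ => ?_
      rw [v.res_mul (res_cast v (ρ i)).1 (hyc i).1, (res_cast v (ρ i)).2, (hyc i).2]
    have hxv : xpt (spec v z') = fun i => (xpt z i).map φ := by
      funext i
      by_cases hi : i ∈ I
      · change spec v z' (Sum.inl i) = (z (Sum.inl i)).map φ
        rw [(hc i hi).1, (hz.of_mem hi).1]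
        rfl
      · change spec v z' (Sum.inl i) = (z (Sum.inl i)).map φ
        rw [(hd i hi).1, hz.inf i hi]
        rfl
    have hred : red ρ (spec v z') = fun j => (red ρ z j).map φ := by
      funext j
      rcases j with i | i
      · exact congrFun hxv i
      · change some (ec ρ (spec v z')) = some (φ (ec ρ z))
        rw [hecv]
    have hkey : key (RatFunc k) (red ρ (spec v z')) = key (RatFunc k) (red ρ z) := by
      rw [hred]
      exact key_map φ _
    refine ⟨v, hv1, hXV, ?_, (hS v.resField N (spec v z') z ρ hXV hz.mem hkey).1⟩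
    rw [← trdeg_xpt hXV, hxv, trdeg_fld_map, trdeg_xpt hz.mem, hz.dim]

end Pool.Agent.Helper7.KA
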